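import Pool.Agent.MP_7857a6_al.Extra

/-!
# Q1: no non-unitary braided fusion category has a gauge with unitary F-matrices

Every braided fusion category over `ℂ` with a gauge in which all F-matrices are unitary is a
unitary braided fusion category, i.e. it is equivalent, by a linear braided monoidal functor, to
a C*-tensor category with unitary braiding; moreover all braiding matrices are unitary in the
same gauge. No hypothesis on the braiding matrices is needed.

The definitions (`FusionCategory`, `SimpleReps`, `Gauge`, `Gauge.IsFMatrix`, `Gauge.UnitaryF`,
`Gauge.IsRMatrix`, `Gauge.UnitaryR`, `CStarStructure`, `CStarStructure.IsTensor`,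
`CStarStructure.IsBraided`, `IsUnitaryBraided`) are in `Pool/Agent/MP_7857a6_al/Defs.lean`.
-/

open CategoryTheory MonoidalCategory MP_7857a6_al

universe v u

/-- **Q1.** A braided fusion category with a gauge in which all F-matrices are unitary is a
unitary braided fusion category, and in that gauge all braiding matrices are unitary. -/
theorem Pool.Agent.Results.MP_7857a6_al.BraidedGauge.result
    (C : Type u) [Category.{v} C] [Abelian C] [Linear ℂ C] [MonoidalCategory C]
    [MonoidalPreadditive C] [MonoidalLinear ℂ C] [RigidCategory C] [BraidedCategory C]
    [FusionCategory C] (R : SimpleReps C) (g : Gauge R) (hg : g.UnitaryF) :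
    IsUnitaryBraided C ∧ g.UnitaryR :=
  ⟨isUnitaryBraided_of_unitaryF g hg, unitaryR_of_unitaryF g hg⟩
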