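import Pool.Agent.MP_7857a6_al.Extra

/-!
# Q2: unitary F-matrices in some gauge are equivalent to unitarity

A fusion category over `ℂ` has a gauge in which all F-matrices are unitary if and only if it is
unitary, i.e. (linearly) monoidally equivalent to a C*-tensor category.

The definitions (`FusionCategory`, `SimpleReps`, `Gauge`, `Gauge.IsFMatrix`, `Gauge.UnitaryF`,
`CStarStructure`, `CStarStructure.IsTensor`, `IsUnitaryMonoidal`) are in
`Pool/Agent/MP_7857a6_al/Defs.lean`. That every F-matrix exists and is unique is the theorem
`MP_7857a6_al.Gauge.existsUnique_FMatrix` of `Pool/Agent/MP_7857a6_al/Extra.lean`.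
-/

open CategoryTheory MonoidalCategory MP_7857a6_al

universe v u

/-- **Q2.** A fusion category is unitary if and only if it has a gauge in which all F-matrices
are unitary (for one, equivalently for every, choice of representatives of the simple objects,
and such representatives exist). -/
theorem Pool.Agent.Results.MP_7857a6_al.FusionGauge.result
    (C : Type u) [Category.{v} C] [Abelian C] [Linear ℂ C] [MonoidalCategory C]
    [MonoidalPreadditive C] [MonoidalLinear ℂ C] [RigidCategory C] [FusionCategory C] :
    Nonempty (SimpleReps C) ∧
      ∀ R : SimpleReps C, (∃ g : Gauge R, g.UnitaryF) ↔ IsUnitaryMonoidal C :=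
  ⟨nonempty_simpleReps, fun R => ⟨fun ⟨g, hg⟩ => isUnitaryMonoidal_of_unitaryF g hg,
    exists_unitaryF_of_isUnitaryMonoidal R⟩⟩
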